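import Pool.Agent.Y762.CosetL
import Pool.Agent.H300R2.HWEuler
import Pool.Agent.H300R2.HWCount

/-!
# Hasse-Weil L-functions of abelian zero-dimensional schemes, uniformly in the scheme

`X = Spec A[1/n]`, `A` a finite product of rings of integers of subfields `F_j` of the `n`-th
cyclotomic field `L`, such that all the degrees `[L : F_j]` are at most `m`.  The starting file
`AbelianPoints` of this folder treats one fixed `X` and `T → ∞`.  Here the estimate is uniform in `X`
(in `n`, in the fields and in their number), and the height may be as small as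
`T ≥ C (1 + √(log n) + (m - 1) (1 + log n)²)`, in particular `T ≥ C (1 + √(log n))` for the cyclotomic
field itself (`m = 1`): at such heights the function `L(0;X,s)` has about
`[F : ℚ] T log (n T) / (2π)` zeros with `T < Im s ≤ 2T`, with `[F : ℚ]` almost exponential in the height.

Proof.  `L(0;X,s)` is the product of the Dirichlet L-functions of the characters modulo `n` which are
trivial on the subgroups `Gal(L/F_j)` of `(ℤ/n)ˣ` (`H300.HW`, point counts over finite fields).  For a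
coset of the group of the characters which are trivial on a subgroup `H` the trace inequality for
the zeros (no hypothesis on zeros off the line), the explicit formula and the mean square of the prime
sums over the coset and over the height (orthogonality: only pairs of integers which are congruent
modulo `n` up to an element of `H` remain) give the proportion
(`Pool.Agent.Y762.coset_L`).
-/

set_option autoImplicit false

open NumberField
open IsCyclotomicExtension.Rat (galEquivZMod)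

namespace Pool.Agent.Results.MP_7193be_nt.AbelianPointsUniform

/-- The Hasse-Weil L-function `L(0;X,s)` of the zero-dimensional scheme `X = Spec A[1/n]`:
the product over the primes `p` not dividing `n` of
`P₀(X(p)/F_p, p^{-s})⁻¹ = exp (∑_{r ≥ 1} #X(F_{p^r}) p^{-rs} / r)`,
with `X(F_{p^r}) = Hom(A, F_{p^r})`. -/
noncomputable def HW (A : Type) [CommRing A] (n : ℕ) (s : ℂ) : ℂ :=
  ∏' p : Nat.Primes, if (p : ℕ) ∣ n then 1 else H300.HW.localZeta A p s

/-- the zeros of `F` in the open critical strip with `T₁ < Im s ≤ T₂` -/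
def zeros (F : ℂ → ℂ) (T₁ T₂ : ℝ) : Set ℂ :=
  {s : ℂ | 0 < s.re ∧ s.re < 1 ∧ T₁ < s.im ∧ s.im ≤ T₂ ∧ F s = 0}

/-- the number of zeros in the open critical strip with `T₁ < Im s ≤ T₂`, with multiplicity -/
noncomputable def N (F : ℂ → ℂ) (T₁ T₂ : ℝ) : ℕ := ∑ᶠ s ∈ zeros F T₁ T₂, analyticOrderNatAt F s

/-- the number of zeros with `Re s = 1/2` and `T₁ < Im s ≤ T₂`, with multiplicity -/
noncomputable def N₀ (F : ℂ → ℂ) (T₁ T₂ : ℝ) : ℕ :=
  ∑ᶠ s ∈ {s : ℂ | s ∈ zeros F T₁ T₂ ∧ s.re = 1 / 2}, analyticOrderNatAt F s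

/-- the number of the simple zeros with `Re s = 1/2` and `T₁ < Im s ≤ T₂` -/
noncomputable def Nsimple (F : ℂ → ℂ) (T₁ T₂ : ℝ) : ℕ :=
  {s : ℂ | s ∈ zeros F T₁ T₂ ∧ s.re = 1 / 2 ∧ analyticOrderNatAt F s = 1}.ncard

/-- the function of Montgomery and Taylor, `c(1) = 1.3274...` -/
noncomputable def c (δ : ℝ) : ℝ := δ / 2 + Real.cot (δ / Real.sqrt 2) / Real.sqrt 2

/-- the Dirichlet characters modulo `n` of the subfield `F` of the `n`-th cyclotomic field `L`: those
which are trivial on `Gal(L/F) ⊆ Gal(L/ℚ) = (ℤ/n)ˣ` -/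
def chars (n : ℕ) [NeZero n] (L : Type) [Field L] [NumberField L] [IsCyclotomicExtension {n} ℚ L]
    (F : IntermediateField ℚ L) : Set (DirichletCharacter ℂ n) :=
  {χ | ∀ σ ∈ F.fixingSubgroup, χ ((galEquivZMod n L σ : (ZMod n)ˣ) : ZMod n) = 1}

lemma N_eq (F : ℂ → ℂ) (T₁ T₂ : ℝ) : N F T₁ T₂ = H300.HW.cnt F (H300.HW.strip T₁ T₂) := by
  rw [← H300.HW.NN_eq]
  rfl

lemma N₀_eq (F : ℂ → ℂ) (T₁ T₂ : ℝ) : N₀ F T₁ T₂ = H300.HW.cnt F (H300.HW.line T₁ T₂) := by
  have h : {s : ℂ | s ∈ zeros F T₁ T₂ ∧ s.re = 1 / 2} =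
      {s : ℂ | s ∈ H300.HW.line T₁ T₂ ∧ F s = 0} := by
    ext s
    simp only [zeros, H300.HW.line, Set.mem_ofPred_eq]
    constructor
    · rintro ⟨⟨-, -, h1, h2, h3⟩, h4⟩
      exact ⟨⟨h4, h1, h2⟩, h3⟩
    · rintro ⟨⟨h1, h2, h3⟩, h4⟩
      exact ⟨⟨by rw [h1]; norm_num, by rw [h1]; norm_num, h2, h3, h4⟩, h1⟩
  unfold N₀ H300.HW.cnt H370.mult
  rw [h]

section
variable (n : ℕ) [NeZero n] (L : Type) [Field L] [NumberField L] [IsCyclotomicExtension {n} ℚ L]

/-- the subgroup of `(ℤ/n)ˣ` of the field `F` -/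
noncomputable def HH (F : IntermediateField ℚ L) : Subgroup (ZMod n)ˣ :=
  F.fixingSubgroup.map (galEquivZMod n L).toMonoidHom

lemma card_HH (F : IntermediateField ℚ L) : Nat.card (HH n L F) = Module.finrank F L := by
  have : IsGalois ℚ L := IsCyclotomicExtension.isGalois {n} ℚ L
  unfold HH
  rw [Nat.card_congr ((F.fixingSubgroup.equivMapOfInjective (galEquivZMod n L).toMonoidHom
    (galEquivZMod n L).injective).symm.toEquiv)]
  exact IsGalois.card_fixingSubgroup_eq_finrank F

lemma mem_coset_iff (F : IntermediateField ℚ L) (χ : DirichletCharacter ℂ n) :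
    χ ∈ Y762.coset (HH n L F) 1 ↔ χ ∈ chars n L F := by
  rw [Y762.mem_coset]
  unfold HH chars
  simp only [Subgroup.mem_map, Set.mem_ofPred_eq, forall_exists_index, and_imp,
    forall_apply_eq_imp_iff₂, MulChar.one_apply_coe]
  rfl

lemma card_coset_HH (F : IntermediateField ℚ L) :
    (Y762.coset (HH n L F) 1).card = Module.finrank ℚ F := by
  have h1 := Y762.card_coset (HH n L F) 1
  rw [card_HH] at h1
  have h2 : Module.finrank ℚ L = Nat.totient n := by
    have := IsCyclotomicExtension.finrank (n := n) (K := ℚ) L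
      (Polynomial.cyclotomic.irreducible_rat (NeZero.pos n))
    exact this
  have h3 : Module.finrank ℚ F * Module.finrank F L = Module.finrank ℚ L :=
    Module.finrank_mul_finrank ℚ F L
  have h4 : 0 < Module.finrank F L := Module.finrank_pos
  rw [← h2, ← h3] at h1
  exact Nat.eq_of_mul_eq_mul_right h4 h1

lemma mem_YY_iff (F : IntermediateField ℚ L) (χ : DirichletCharacter ℂ n) :
    χ ∈ H300.HW.YY n L F ↔ χ ∈ chars n L F :=
  H300.HW.mem_YY n L F χ

open Classical in
lemma sum_YY (F : IntermediateField ℚ L) (g : DirichletCharacter ℂ n → ℝ) :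
    ∑ χ : H300.HW.YY n L F, g χ = ∑ χ ∈ Y762.coset (HH n L F) 1, g χ := by
  exact (Finset.sum_subtype (Y762.coset (HH n L F) 1)
    (fun χ => by rw [mem_coset_iff, ← mem_YY_iff]) g).symm

lemma finsum_chars (F : IntermediateField ℚ L) (g : DirichletCharacter ℂ n → ℝ) :
    ∑ᶠ χ ∈ chars n L F, g χ = ∑ χ ∈ Y762.coset (HH n L F) 1, g χ := by
  have h : chars n L F = ((Y762.coset (HH n L F) 1 : Finset _) : Set (DirichletCharacter ℂ n)) := by
    ext χ
    rw [Finset.mem_coe, mem_coset_iff]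
  rw [h, finsum_mem_coe_finset]

lemma fin_zeros (χ : DirichletCharacter ℂ n) (T₁ T₂ : ℝ) (h : 0 < T₁) :
    (H370.zset (DirichletCharacter.LFunction χ) T₁ T₂).Finite := by
  have hc : χ.conductor ≠ 0 := χ.conductor_ne_zero
  have : NeZero χ.conductor := ⟨hc⟩
  have hg := H370.good_dirichlet χ.primitiveCharacter χ.primitiveCharacter_isPrimitive
  have h2 := H385.LF_zset_eq n (NeZero.pos n) χ T₁ T₂ h.le
  rw [H300.HW.LF_eq, H300.HW.LF_eq] at h2
  rw [h2]
  exact H370.zset_finite' hg T₁ T₂ h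

end

/-- **The theorem.**  `0 ≤ a < 1` and `ε > 0`; `L` is the `n`-th cyclotomic field, `F j` are finitely
many subfields with `[L : F j] ≤ m`.  For `m = 1` the constant is `2 - c(1) - ε`, where
`2 - c(1) = 0.6725...`. -/
theorem result (a ε : ℝ) (ha0 : 0 ≤ a) (ha1 : a < 1) (hε : 0 < ε) :
    ∃ C ζ : ℝ, 1 ≤ C ∧ 0 < ζ ∧ ∀ (n : ℕ) [NeZero n] (L : Type) [Field L] [NumberField L]
    [IsCyclotomicExtension {n} ℚ L] (ι : Type) [Fintype ι] (F : ι → IntermediateField ℚ L),
    ∃ Λ : ℂ → ℂ,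
      (∀ s : ℂ, s ≠ 1 → AnalyticAt ℂ Λ s) ∧
      (∀ s : ℂ, 1 < s.re →
        (∀ p : Nat.Primes, ¬ (p : ℕ) ∣ n → Summable fun r : ℕ =>
          (Nat.card ((∀ j, 𝓞 (F j)) →+* GaloisField p (r + 1)) : ℂ) *
            ((p : ℕ) : ℂ) ^ (-(((r + 1 : ℕ) : ℂ) * s)) / ((r + 1 : ℕ) : ℂ)) ∧
        (Multipliable fun p : Nat.Primes =>
          if (p : ℕ) ∣ n then 1 else H300.HW.localZeta (∀ j, 𝓞 (F j)) p s) ∧
        Λ s = HW (∀ j, 𝓞 (F j)) n s) ∧
      ∀ (m : ℕ) (T : ℝ), 1 ≤ m → (∀ j, Module.finrank (F j) L ≤ m) →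
        C * (1 + Real.sqrt (Real.log n) + ((m : ℝ) - 1) * (1 + Real.log n) ^ 2) ≤ T →
        (m : ℝ) ≤ (n * T) ^ a →
        ((m : ℝ) ≤ (n * T) ^ ζ ∨ ∀ j, ∑ᶠ χ ∈ chars n L (F j), (Real.log n - Real.log χ.conductor) ≤
          ζ * Real.log (n * T) * (Module.finrank ℚ (F j) : ℝ)) →
        (zeros Λ T (2 * T)).Finite ∧
        (1 - ε) * (T / (2 * Real.pi) * Real.log (n * T)) * (∑ j, (Module.finrank ℚ (F j) : ℝ)) ≤
          (N Λ T (2 * T) : ℝ) ∧
        (2 - c (1 - a) - ε) * (N Λ T (2 * T) : ℝ) ≤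
          ∑ j, ∑ᶠ χ ∈ chars n L (F j), (Nsimple (DirichletCharacter.LFunction χ) T (2 * T) : ℝ) ∧
        (2 - c (1 - a) - ε) * (N Λ T (2 * T) : ℝ) ≤ (N₀ Λ T (2 * T) : ℝ) := by
  classical
  obtain ⟨C, ζ, hC, hζ, H⟩ := Y762.coset_L a ε ha0 ha1 hε
  refine ⟨C, ζ, hC, hζ, fun n _ L _ _ _ ι _ F => ⟨H300.HW.LL n L F, ?_, ?_, ?_⟩⟩
  · intro s hs
    unfold H300.HW.LL
    refine Finset.analyticAt_fun_prod _ (fun x _ => ?_)
    rw [← H300.HW.LF_eq n]
    exact H385.LF_analyticAt n _ hs
  · intro s hs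
    have h := H300.HW.hasProd_LL n L F hs
    exact ⟨fun p hp => (H300.HW.localZeta_pi n _ F p hp (by linarith)).1, h.multipliable,
      h.tprod_eq.symm⟩
  · intro m T hm hFm hT hma hcase
    have hn1 : (1 : ℝ) ≤ n := by exact_mod_cast (NeZero.one_le : 1 ≤ n)
    have hlog : 0 ≤ Real.log n := Real.log_nonneg hn1
    have hm1 : (1 : ℝ) ≤ m := by exact_mod_cast hm
    have hCT : C ≤ T := by
      refine le_trans ?_ hT
      have h1 := Real.sqrt_nonneg (Real.log n)
      have h2 : 0 ≤ ((m : ℝ) - 1) * (1 + Real.log n) ^ 2 := by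
        have : 0 ≤ (m : ℝ) - 1 := by linarith
        positivity
      exact le_mul_of_one_le_right (by linarith) (by linarith)
    have hT1 : 0 < T := by linarith
    set f : (Σ j, H300.HW.YY n L (F j)) → ℂ → ℂ :=
      fun x => DirichletCharacter.LFunction (x.2 : DirichletCharacter ℂ n) with hf
    have hLL : H300.HW.LL n L F = fun z => ∏ x, f x z := by
      ext z
      unfold H300.HW.LL
      rfl
    have hfin : ∀ x, (H370.zset (f x) T (2 * T)).Finite := fun x => fin_zeros n _ T (2 * T) hT1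
    have hstrip : ∀ x, {s : ℂ | s ∈ H300.HW.strip T (2 * T) ∧ f x s = 0} =
        H370.zset (f x) T (2 * T) := by
      intro x
      ext s
      simp only [H370.zset, H300.HW.strip, Set.mem_ofPred_eq, and_assoc]
    have hline : ∀ x, {s : ℂ | s ∈ H300.HW.line T (2 * T) ∧ f x s = 0} ⊆
        H370.zset (f x) T (2 * T) := by
      rintro x s ⟨⟨h1, h2, h3⟩, h4⟩
      exact ⟨by rw [h1]; norm_num, by rw [h1]; norm_num, h2, h3, h4⟩
    have han : ∀ x, ∀ s : ℂ, 0 < s.im → AnalyticAt ℂ (f x) s := by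
      intro x s hs
      rw [hf]
      simp only
      rw [← H300.HW.LF_eq n]
      exact H385.LF_analyticAt n _ (H300.HW.upper_ne_one hs)
    have hord : ∀ x, ∀ s : ℂ, 0 < s.im → analyticOrderAt (f x) s ≠ ⊤ :=
      fun x s hs => H300.HW.order_ne_top n _ hs
    have hN : N (fun z => ∏ x, f x z) T (2 * T) =
        ∑ x, H300.HW.cnt (f x) (H300.HW.strip T (2 * T)) := by
      rw [N_eq]
      refine H300.HW.cnt_prod Finset.univ f (fun x _ s hs => han x s ?_)
        (fun x _ s hs => hord x s ?_) (fun x _ => ?_)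
      · exact hT1.trans hs.2.2.1
      · exact hT1.trans hs.2.2.1
      · rw [hstrip x]
        exact hfin x
    have hN0 : N₀ (fun z => ∏ x, f x z) T (2 * T) =
        ∑ x, H300.HW.cnt (f x) (H300.HW.line T (2 * T)) := by
      rw [N₀_eq]
      refine H300.HW.cnt_prod Finset.univ f (fun x _ s hs => han x s ?_)
        (fun x _ s hs => hord x s ?_) (fun x _ => ?_)
      · exact hT1.trans hs.2.1
      · exact hT1.trans hs.2.1
      · exact (hfin x).subset (hline x)
    -- the sums over the cosets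
    have hNsum : (N (fun z => ∏ x, f x z) T (2 * T) : ℝ) =
        ∑ j, ∑ χ ∈ Y762.coset (HH n L (F j)) 1,
          (H370.NN (DirichletCharacter.LFunction χ) T (2 * T) : ℝ) := by
      rw [hN]
      push_cast
      rw [Fintype.sum_sigma]
      refine Finset.sum_congr rfl fun j _ => ?_
      rw [← sum_YY n L (F j) fun χ => (H370.NN (DirichletCharacter.LFunction χ) T (2 * T) : ℝ)]
      refine Finset.sum_congr rfl fun χ _ => ?_
      rw [← H300.HW.NN_eq]
    have hN0sum : ∑ j, ∑ χ ∈ Y762.coset (HH n L (F j)) 1,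
          (H370.Ns (DirichletCharacter.LFunction χ) T (2 * T) : ℝ) ≤
        (N₀ (fun z => ∏ x, f x z) T (2 * T) : ℝ) := by
      rw [hN0]
      push_cast
      rw [Fintype.sum_sigma]
      refine Finset.sum_le_sum fun j _ => ?_
      rw [← sum_YY n L (F j) fun χ => (H370.Ns (DirichletCharacter.LFunction χ) T (2 * T) : ℝ)]
      refine Finset.sum_le_sum fun χ _ => ?_
      exact_mod_cast H300.HW.Ns_le (f ⟨j, χ⟩) T (2 * T) (hfin ⟨j, χ⟩)
    have key : ∀ j, Y762.Concl (Y762.coset (HH n L (F j)) 1) T (Y762.cH (1 - a) + ε) ε := by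
      intro j
      have hcj : (Nat.card (HH n L (F j)) : ℝ) ≤ m := by
        rw [card_HH]
        exact_mod_cast hFm j
      refine H n (HH n L (F j)) 1 T ?_ (hcj.trans hma) ?_
      · refine le_trans ?_ hT
        refine mul_le_mul_of_nonneg_left ?_ (by linarith)
        have : ((Nat.card (HH n L (F j)) : ℝ) - 1) * (1 + Real.log n) ^ 2 ≤
            ((m : ℝ) - 1) * (1 + Real.log n) ^ 2 :=
          mul_le_mul_of_nonneg_right (by linarith) (by positivity)
        linarith
      · rcases hcase with h | h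
        · exact Or.inl (hcj.trans h)
        · refine Or.inr ?_
          have h1 := h j
          rw [finsum_chars] at h1
          rw [card_coset_HH]
          exact h1
    rw [hLL]
    refine ⟨?_, ?_, ?_, ?_⟩
    · have h1 : zeros (fun z => ∏ x, f x z) T (2 * T) ⊆ ⋃ x, H370.zset (f x) T (2 * T) := by
        rintro s ⟨h1, h2, h3, h4, h5⟩
        obtain ⟨x, -, hx⟩ := Finset.prod_eq_zero_iff.mp h5
        exact Set.mem_iUnion.mpr ⟨x, h1, h2, h3, h4, hx⟩
      exact (Set.finite_iUnion hfin).subset h1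
    · rw [hNsum, Finset.mul_sum]
      refine Finset.sum_le_sum fun j _ => ?_
      have h1 := (key j).2.2
      rw [card_coset_HH] at h1
      exact h1
    · rw [hNsum, Finset.mul_sum]
      refine Finset.sum_le_sum fun j _ => ?_
      rw [finsum_chars]
      have h1 := (key j).1
      have h2 : (2 - c (1 - a) - ε) = 2 - (Y762.cH (1 - a) + ε) := by
        unfold c Y762.cH
        ring
      rw [h2]
      exact h1
    · refine le_trans ?_ hN0sum
      rw [hNsum, Finset.mul_sum]
      refine Finset.sum_le_sum fun j _ => ?_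
      have h1 := (key j).1
      have h2 : (2 - c (1 - a) - ε) = 2 - (Y762.cH (1 - a) + ε) := by
        unfold c Y762.cH
        ring
      rw [h2]
      exact h1

end Pool.Agent.Results.MP_7193be_nt.AbelianPointsUniform
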