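import Pool.Agent.Y693.RF.ThmB

/-!
# The Euler products of elliptic curves over random number fields, right of the critical line

`F` is a number field of degree `d` (for example `F = ℚ`), and `f` a monic polynomial of degree `n` over
`𝓞_F`.  For an integer `t` let `L = F(θ)` be an extension of degree `n` of `F` generated by a root
`θ` of `f + t` (for a given `f` it exists for all but `O(X^{1/2} log X)` of the integers `|t| ≤ X`, by
Hilbert's irreducibility theorem).  Let `P`, `Q` be polynomials of degree at most two over `𝓞_F`, not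
both constant, and `E` the curve `y² = x³ + P(θ) x + Q(θ)` over `L`.  The L-function of `E` over `L` is
the function `L(1; X, s)` of the question for the abelian variety `X` over `ℚ` of dimension `[L : ℚ]`
which is the restriction of scalars of `E` (up to finitely many Euler factors).  Its continuation is not
known: the fields `L` are arbitrary members of one-parameter families of any degree, they are not
solvable over `F` in general, and `E` is not a base change.

Part (c) of the question says that `L(1; X, s)` has no zeros for `Re s > 1`.  Together with the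
continuation it implies that the partial Euler products over the primes of norm at most `y` converge
in this half plane, with an error which is a negative power of `y` as soon as `y` is larger than a power
of the logarithm of the conductor.  The theorem says that, without any hypothesis, for almost all `t`
the partial products behave in this way for `Re s ≥ 1 + δ` in the range between `(log X)^{1/c}` and
`X^c`, simultaneously for all extensions `L = F(θ)`, for any `X^c` pairs `(P, Q)`, and for all twists of
the curves by systems `γ` over `F` of numbers of absolute value at most one (for example the normalised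
eigenvalues of Frobenius on the cohomology of a variety `W` over `F`, which gives a part of the
L-function of `E × W`).  Moreover the L-function itself is close to the partial product over the primes
up to `(log X)^{1/c}` in the half plane `Re s ≥ 3/2 + A / log X`.
-/

set_option autoImplicit false

namespace Pool.Agent.Results.MP_7193be_nt.EllipticOverRandomFields

open NumberField IsDedekindDomain

section
variable {L : Type} [Field L] [NumberField L]

/-- `a_v(E) = q_v - #{(x, y) : y² = x³ + a x + b}`, where `x`, `y` are in the residue field of `v`.  It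
is the trace of the Frobenius at `v` of `E : y² = x³ + a x + b`, if the reduction is good. -/
noncomputable def trace (a b : 𝓞 L) (v : HeightOneSpectrum (𝓞 L)) : ℂ :=
  (Ideal.absNorm v.asIdeal : ℂ) - Nat.card {P : (𝓞 L ⧸ v.asIdeal) × (𝓞 L ⧸ v.asIdeal) //
    P.2 ^ 2 = P.1 ^ 3 + Ideal.Quotient.mk v.asIdeal a * P.1 + Ideal.Quotient.mk v.asIdeal b}

/-- The prime `v` does not divide `6 (4 a³ + 27 b²)`, so that `E : y² = x³ + a x + b` has good reduction
at `v`. -/
def IsGood (a b : 𝓞 L) (v : HeightOneSpectrum (𝓞 L)) : Prop :=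
  6 * (4 * a ^ 3 + 27 * b ^ 2) ∉ v.asIdeal

/-- The Euler factor at `v` of `L(E/L, s)`, for `N = 1` and `γ = 1`.  In general it is the product over
`j` of `(1 - a_v(E) γ_{v,j} q_v^{-s} + γ_{v,j}² q_v^{1-2s})⁻¹`, the Euler factor of the twist of `E` by
`γ`. -/
noncomputable def factor {N : ℕ} (a b : 𝓞 L) (γ : HeightOneSpectrum (𝓞 L) → Fin N → ℂ) (s : ℂ)
    (v : HeightOneSpectrum (𝓞 L)) : ℂ :=
  ∏ j, (1 - trace a b v * γ v j * (Ideal.absNorm v.asIdeal : ℂ) ^ (-s) +
    γ v j ^ 2 * (Ideal.absNorm v.asIdeal : ℂ) ^ (1 - 2 * s))⁻¹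

/-- The partial Euler product over the good primes of norm at most `x`. -/
noncomputable def partialProduct {N : ℕ} (a b : 𝓞 L) (γ : HeightOneSpectrum (𝓞 L) → Fin N → ℂ)
    (s : ℂ) (x : ℕ) : ℂ :=
  ∏ᶠ v ∈ {v : HeightOneSpectrum (𝓞 L) | IsGood a b v ∧ Ideal.absNorm v.asIdeal ≤ x},
    factor a b γ s v

/-- The Euler product over all good primes. -/
noncomputable def fullProduct {N : ℕ} (a b : 𝓞 L) (γ : HeightOneSpectrum (𝓞 L) → Fin N → ℂ)
    (s : ℂ) : ℂ :=
  ∏' v : {v : HeightOneSpectrum (𝓞 L) // IsGood a b v}, factor a b γ s v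

/-- All conjugates of `x` have absolute value at most `R`. -/
def HeightLE (R : ℝ) (x : 𝓞 L) : Prop :=
  ∀ σ : L →+* ℂ, ‖σ (x : L)‖ ≤ R

end

section
variable {F : Type} [Field F] [NumberField F]

/-- The base change of the system `γ` to `L`: at a prime `w` above `v` it consists of the powers
`γ ^ f(w|v)`, where `f(w|v)` is the residue degree. -/
noncomputable def baseChange {N : ℕ} (L : Type) [Field L] [NumberField L] [Algebra F L]
    (γ : Ideal (𝓞 F) → Fin N → ℂ) (w : HeightOneSpectrum (𝓞 L)) (j : Fin N) : ℂ :=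
  γ (w.asIdeal.comap (algebraMap (𝓞 F) (𝓞 L))) j ^
    Ideal.inertiaDeg' (w.asIdeal.comap (algebraMap (𝓞 F) (𝓞 L))) w.asIdeal

/-- `L = F(θ)` is an extension of `F` of degree `deg f`, and `θ` is a root of `f + t`. -/
def Generates {L : Type} [Field L] [NumberField L] [Algebra F L]
    (f : Polynomial (𝓞 F)) (t : ℤ) (θ : 𝓞 L) : Prop :=
  Polynomial.aeval θ (f + Polynomial.C (t : 𝓞 F)) = 0 ∧ Module.finrank F L = f.natDegree ∧
    Algebra.adjoin F {(θ : L)} = ⊤

end

/-- **Elliptic curves over random number fields.**  Let `d`, `n`, `N` be integers, `n ≥ 1`, `B` real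
and `δ > 0`.  There is `c > 0`, and for every `η > 0` there are `A` and `X₀`, such that for all
`X ≥ X₀`, all number fields `F` of degree `d`, all monic polynomials `f` of degree `n` over `𝓞_F`, any
`m ≤ X^c` pairs `(P_k, Q_k)` of polynomials of degree at most two over `𝓞_F`, not both constant, all
coefficients having height at most `exp((log X)^B)`, and any systems `γ_k` of numbers of absolute value
at most one, the following holds for all integers `t` with `|t| ≤ X`, with at most `X^{1-c}`
exceptions.  Let `L = F(θ)` be any extension of `F` of degree `n` with `f(θ) = - t`, and `Π_k(s; x)` the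
partial Euler product, over the good primes of norm at most `x`, of the L-function of
`E_k : y² = x³ + P_k(θ) x + Q_k(θ)` over `L` (twisted by `γ_k`).  Then for all `k`

* `|Π_k(s; x) / Π_k(s; y) - 1| ≤ y^{-c}` for `Re s ≥ 1 + δ`, `|Im s| ≤ X^c` and
  `(log X)^{1/c} ≤ y ≤ x ≤ X^c`;
* `|L(E_k/L, s) / Π_k(s; y) - 1| ≤ η` for `Re s ≥ 3/2 + A / log X`, `|Im s| ≤ X^c` and
  `y ≥ (log X)^{1/c}`. -/
theorem result (d n N : ℕ) (hn : 0 < n) (B δ : ℝ) (hδ : 0 < δ) :
    ∃ c : ℝ, 0 < c ∧ ∀ η : ℝ, 0 < η → ∃ A : ℝ, ∃ X₀ : ℕ, ∀ X : ℕ, X₀ ≤ X →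
      ∀ (F : Type) [Field F] [NumberField F], Module.finrank ℚ F = d →
      ∀ f : Polynomial (𝓞 F), f.Monic → f.natDegree = n →
      (∀ i, HeightLE (Real.exp ((Real.log X) ^ B)) (f.coeff i)) →
      ∀ m : ℕ, (m : ℝ) ≤ (X : ℝ) ^ c → ∀ (P Q : Fin m → Polynomial (𝓞 F))
        (γ : Fin m → Ideal (𝓞 F) → Fin N → ℂ),
        (∀ k, (P k).natDegree ≤ 2 ∧ (Q k).natDegree ≤ 2 ∧ 0 < (P k).natDegree + (Q k).natDegree) →
        (∀ k i, HeightLE (Real.exp ((Real.log X) ^ B)) ((P k).coeff i) ∧
          HeightLE (Real.exp ((Real.log X) ^ B)) ((Q k).coeff i)) →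
        (∀ k v j, ‖γ k v j‖ ≤ 1) →
        ({t : ℤ | |t| ≤ X ∧ ¬ ∀ (L : Type) [Field L] [NumberField L] [Algebra F L] (θ : 𝓞 L),
          Generates f t θ → ∀ k : Fin m,
            (∀ s : ℂ, 1 + δ ≤ s.re → |s.im| ≤ (X : ℝ) ^ c → ∀ y x : ℕ,
              (Real.log X) ^ (1 / c) ≤ y → y ≤ x → (x : ℝ) ≤ (X : ℝ) ^ c →
              ‖partialProduct (Polynomial.aeval θ (P k)) (Polynomial.aeval θ (Q k))
                  (baseChange L (γ k)) s x /
                partialProduct (Polynomial.aeval θ (P k)) (Polynomial.aeval θ (Q k))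
                  (baseChange L (γ k)) s y - 1‖ ≤ (y : ℝ) ^ (-c)) ∧
            (∀ s : ℂ, 3 / 2 + A / Real.log X ≤ s.re → |s.im| ≤ (X : ℝ) ^ c → ∀ y : ℕ,
              (Real.log X) ^ (1 / c) ≤ y →
              ‖fullProduct (Polynomial.aeval θ (P k)) (Polynomial.aeval θ (Q k))
                  (baseChange L (γ k)) s /
                partialProduct (Polynomial.aeval θ (P k)) (Polynomial.aeval θ (Q k))
                  (baseChange L (γ k)) s y - 1‖ ≤ η)}.ncard : ℝ) ≤
          (X : ℝ) ^ (1 - c) := by
  obtain ⟨c, hc, h⟩ := Pool.Agent.Y693.RF.thmB d n N hn B δ hδ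
  refine ⟨c, hc, fun η hη => ?_⟩
  obtain ⟨A, X₀, hX⟩ := h η hη
  refine ⟨A, X₀, fun X hX0 F _ _ hF f hf hfn hcoef m hm P Q γ hdeg hPQ hγ => ?_⟩
  have h1 := hX X hX0 F hF f hf hfn hcoef m hm P Q γ hdeg
    (fun k i σ => ⟨(hPQ k i).1 σ, (hPQ k i).2 σ⟩) hγ
  refine le_of_eq_of_le ?_ h1
  congr 2
  ext t
  refine and_congr_right fun _ => not_congr ⟨?_, ?_⟩
  · intro h2 L _ _ _ θ hθ k
    refine h2 L θ ⟨hθ.root, ?_, hθ.top⟩ k
    rw [hθ.deg, Polynomial.natDegree_add_C]
  · intro h2 L _ _ _ θ hθ k
    refine h2 L θ ⟨hθ.1, ?_, hθ.2.2⟩ k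
    rw [hθ.2.1, Polynomial.natDegree_add_C]

end Pool.Agent.Results.MP_7193be_nt.EllipticOverRandomFields
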