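import Pool.Agent.V11291.GS.Euler
import Pool.Agent.V11291.GS.Pts

/-!
# Meromorphic continuation of zeta functions of arithmetic schemes and Gaussian sums of point counts

Let `X` be a scheme of finite type over `ℤ`, for instance a smooth projective scheme over `ℤ[1/N]`, and `#X(𝔽_q)` the
number of its points over `𝔽_q`. Its zeta function is

`ζ(X, s) = ∏_p exp(∑_{k ≥ 1} #X(𝔽_{p^k}) p^{-ks} / k)`.

For `X` smooth and projective over `ℤ[1/N]` this is `∏_i L(i; X, s)^{(-1)^i}` with the Hasse-Weil L-functions of `X`.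
If `X` is a curve with geometrically irreducible generic fibre, `ζ(X, s) = ζ(s) ζ(s - 1) / L(1; X, s)` up to
finitely many factors, so that `ζ(X, s)` has a meromorphic continuation to `ℂ` if and only if `L(1; X, s)` has; the
same holds for complete intersections of dimension `d` and `L(d; X, s)` if the cohomology outside the middle
dimension is generated by powers of the hyperplane class. The product converges in a half plane. It is conjectured
that `ζ(X, s)` has a meromorphic continuation to `ℂ` (Hasse, Weil, Serre).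

For real `A ≥ 0` and `T > 0` consider the absolutely convergent sum over all prime powers `q = p^k`

`G_A(T) = (4πT)^{-1/2} ∑_q #X(𝔽_q) (log p) q^A exp(-(log q)² / (4T))`.

(1) For every `A ≥ 0` and every finite divisor `∑ m(β) [β]` in the sector `|Im s| < Re s + A` (to the left of the
half plane of convergence): `ζ(X, s)` has a meromorphic continuation to the sector with exactly this divisor of
zeros and poles IF AND ONLY IF

`G_A(T) = -∑_β m(β) exp((β + A)² T) + O(exp(ε T))`, `T → ∞`, for every `ε > 0`.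

(2) Consequently `ζ(X, s)` has a meromorphic continuation to `ℂ` IF AND ONLY IF for every `A ≥ 0` (equivalently: for
arbitrarily large `A`) the sum `G_A(T)` has such an expansion with some finite divisor.

(3) In this case the divisor in the expansion of `G_A(T)` is the divisor of the zeros and poles of `ζ(X, s)` in
the sector `|Im s| < Re s + A`.

No growth condition, no functional equation, no zero-free region and no Riemann hypothesis is assumed; nothing is
assumed about `X` (which may be singular, nonreduced, not flat). The library `Pool.Agent.V11291.GS` is the one of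
our hand-in `MP_eea520_nt.GaussianPrimeSums` (Euler products with boundedly many parameters at each prime); new here
is the passage to point counts, in particular `#X(𝔽_q) ≤ C q^d` for all schemes of finite type over `ℤ`.
-/

set_option autoImplicit false

namespace Pool.Agent.Results.MP_7193be_nt.GaussianPointCounts

open Filter Topology Set CategoryTheory AlgebraicGeometry

/-- The number of points of `X` over the field with `p^k` elements, `k ≥ 1`. -/
noncomputable def points (X : Scheme.{0}) (p : Nat.Primes) (k : ℕ) : ℕ :=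
  haveI : Fact (p : ℕ).Prime := ⟨p.2⟩
  Nat.card (Spec (CommRingCat.of (GaloisField p k)) ⟶ X)

/-- The logarithm of the zeta function of the fibre at `p`: `∑_{k ≥ 1} #X(𝔽_{p^k}) p^{-ks} / k`. -/
noncomputable def logFibre (X : Scheme.{0}) (p : Nat.Primes) (s : ℂ) : ℂ :=
  ∑' k : ℕ, (points X p (k + 1) : ℂ) / (k + 1) * (((p : ℕ) : ℂ) ^ (-s)) ^ (k + 1)

/-- `y` is the value of `ζ(X, s)`. -/
def IsZeta (X : Scheme.{0}) (s y : ℂ) : Prop :=
  HasProd (fun p : Nat.Primes => Complex.exp (logFibre X p s)) y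

/-- The sector `|Im s| < Re s + A`. -/
def Sector (A : ℝ) : Set ℂ := {s | |s.im| < s.re + A}

/-- The Gaussian sum `G_A(T)` of the point counts. -/
noncomputable def gauss (X : Scheme.{0}) (A T : ℝ) : ℝ :=
  (Real.sqrt (4 * Real.pi * T))⁻¹ * ∑' q : Nat.Primes × ℕ, points X q.1 (q.2 + 1) *
    (Real.log (q.1 : ℕ) * ((q.1 : ℕ) : ℝ) ^ (A * (q.2 + 1)) *
      Real.exp (-(((q.2 + 1) * Real.log (q.1 : ℕ)) ^ 2 / (4 * T))))

/-- The divisor `∑ m(β) [β]`, `β ∈ Z`, lies in the sector, and in `Re s ≤ σ`. -/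
def InSector (σ A : ℝ) (Z : Finset ℂ) : Prop := ∀ β ∈ Z, β ∈ Sector A ∧ β.re ≤ σ

/-- `G_A(T) = -∑_β m(β) exp((β + A)² T) + O(exp(ε T))` for every `ε > 0`. -/
def Expansion (X : Scheme.{0}) (A : ℝ) (Z : Finset ℂ) (m : ℂ → ℤ) : Prop :=
  ∀ ε : ℝ, 0 < ε → ∃ C : ℝ, ∀ᶠ T : ℝ in atTop,
    ‖(gauss X A T : ℂ) + ∑ β ∈ Z, (m β : ℂ) * Complex.exp ((β + A) ^ 2 * T)‖ ≤
      C * Real.exp (ε * T)

/-- `ζ(X, s)` has a meromorphic continuation to the union of the half plane `Re s > σ` and the sector with the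
divisor `∑ m(β) [β]`, `β ∈ Z`: it is `H(s) ∏_{β ∈ Z} (s - β)^{m(β)}` with a function `H`, holomorphic and
without zeros in the union. -/
def ContinuesWith (X : Scheme.{0}) (σ A : ℝ) (Z : Finset ℂ) (m : ℂ → ℤ) : Prop :=
  ∃ H : ℂ → ℂ, (∀ s : ℂ, s ∈ Sector A ∨ σ < s.re → DifferentiableAt ℂ H s ∧ H s ≠ 0) ∧
    ∀ s : ℂ, σ < s.re → IsZeta X s (H s * ∏ β ∈ Z, (s - β) ^ m β)

/-- `f` is a meromorphic continuation of `ζ(X, s)` to `ℂ`. -/
def IsContinuation (X : Scheme.{0}) (f : ℂ → ℂ) : Prop :=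
  MeromorphicOn f univ ∧ ∃ σ : ℝ, ∀ s : ℂ, σ < s.re → IsZeta X s (f s)

open Pool.Agent.V11291.GS

/-- the norms -/
abbrev NN : Nat.Primes → ℕ := fun p => (p : ℕ)

/-- the coefficients -/
noncomputable def cz (X : Scheme.{0}) (q : Nat.Primes × ℕ) : ℂ :=
  (points X q.1 (q.2 + 1) : ℂ) / ((q.2 : ℂ) + 1)

theorem points_le (X : Scheme.{0}) [CompactSpace X] (f : X ⟶ Spec (CommRingCat.of ℤ))
    [LocallyOfFiniteType f] : ∃ C d : ℕ, ∀ (p : Nat.Primes) (k : ℕ),
      (points X p (k + 1) : ℝ) ≤ C * (((p : ℕ) : ℝ) ^ (d : ℝ)) ^ (k + 1) := by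
  obtain ⟨C, d, h⟩ := pt_card X f
  refine ⟨C, d, fun p k => ?_⟩
  have : Fact (p : ℕ).Prime := ⟨p.2⟩
  have h1 := h (GaloisField p (k + 1))
  rw [GaloisField.card p (k + 1) (by omega)] at h1
  have h2 : (points X p (k + 1) : ℝ) ≤ ((C * ((p : ℕ) ^ (k + 1)) ^ d : ℕ) : ℝ) := by
    exact_mod_cast h1
  refine h2.trans (le_of_eq ?_)
  push_cast
  rw [Real.rpow_natCast, ← pow_mul, ← pow_mul, mul_comm d]

/-- the index structure, without parameters -/
theorem exists_gd (X : Scheme.{0}) [CompactSpace X] (f : X ⟶ Spec (CommRingCat.of ℤ))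
    [LocallyOfFiniteType f] : ∃ c : ℝ, ∀ σ : ℝ, 1 + c < σ →
      GD (xx NN) (cz X) (Real.log 2) σ := by
  obtain ⟨C, d, h⟩ := points_le X f
  refine ⟨d, fun σ hσ => ?_⟩
  have E : EP (r := 0) NN (fun _ i => i.elim0) (d : ℝ) σ :=
    ⟨fun p => p.2.two_le, fun t ht => Nat.Primes.summable_rpow.2 (by linarith : -t < -1),
      Nat.cast_nonneg d, fun _ i => i.elim0, hσ⟩
  refine ⟨E.gd.δ0, E.gd.σ0, E.gd.ge, ?_⟩
  refine Summable.of_nonneg_of_le (fun q => by positivity) (fun q => ?_)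
    (E.summable.mul_left (C : ℝ))
  have hN : (0 : ℝ) < ((q.1 : ℕ) : ℝ) := E.pos q.1
  have h1 : ‖cz X q‖ ≤ C * (((q.1 : ℕ) : ℝ) ^ (d : ℝ)) ^ (q.2 + 1) := by
    unfold cz
    have h3 : ‖((q.2 : ℂ) + 1)‖ = (q.2 : ℝ) + 1 := by
      rw [show ((q.2 : ℂ) + 1) = (((q.2 : ℝ) + 1 : ℝ) : ℂ) by push_cast; ring, Complex.norm_real,
        Real.norm_of_nonneg (by positivity)]
    rw [norm_div, h3, Complex.norm_natCast]
    refine (div_le_self (Nat.cast_nonneg _) ?_).trans (h q.1 q.2)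
    have : (0 : ℝ) ≤ q.2 := q.2.cast_nonneg
    linarith
  rw [E.exp_x]
  calc _ ≤ (C * (((q.1 : ℕ) : ℝ) ^ (d : ℝ)) ^ (q.2 + 1)) * (((q.1 : ℕ) : ℝ) ^ (-σ)) ^ (q.2 + 1) := by
        gcongr
    _ = _ := by
      rw [mul_assoc, ← mul_pow, ← Real.rpow_add hN]
      congr 3
      ring

theorem gauss_eq (X : Scheme.{0}) (A T : ℝ) :
    (gauss X A T : ℂ) = G (xx NN) (cA (xx NN) (cz X) A) T := by
  unfold gauss G
  rw [← tsum_mul_left, Complex.ofReal_tsum]
  refine tsum_congr fun q => ?_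
  have hp0 : (0 : ℝ) < ((q.1 : ℕ) : ℝ) := by exact_mod_cast q.1.2.pos
  have h1 : ((q.1 : ℕ) : ℝ) ^ (A * (q.2 + 1)) = Real.exp (A * xx NN q) := by
    rw [Real.rpow_def_of_pos hp0]
    congr 1
    unfold xx
    ring
  have h2 : ((q.2 : ℂ) + 1) ≠ 0 := by exact_mod_cast q.2.succ_ne_zero
  unfold cA cz kr
  rw [h1]
  unfold xx
  push_cast
  field_simp

theorem expansion_iff (X : Scheme.{0}) (A : ℝ) (Z : Finset ℂ) (m : ℂ → ℤ) :
    Expansion X A Z m ↔ Ex (xx NN) (cz X) A Z m := by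
  unfold Expansion Ex
  simp only [gauss_eq]

theorem hasProd {X : Scheme.{0}} {σ : ℝ} (D : GD (xx NN) (cz X) (Real.log 2) σ) {s : ℂ}
    (hs : σ ≤ s.re) : HasProd (fun p : Nat.Primes => Complex.exp (logFibre X p s))
      (Complex.exp (ll (xx NN) (cz X) s)) := by
  have h1 := D.ll_summable hs
  have hterm : ∀ (p : Nat.Primes) (k : ℕ), cz X (p, k) * Complex.exp (-(s * xx NN (p, k))) =
      (points X p (k + 1) : ℂ) / (k + 1) * (((p : ℕ) : ℂ) ^ (-s)) ^ (k + 1) := by
    intro p k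
    have hN : ((p : ℕ) : ℂ) ≠ 0 := by exact_mod_cast p.2.ne_zero
    unfold cz xx
    simp only
    congr 1
    rw [Complex.cpow_def_of_ne_zero hN, ← Complex.exp_nat_mul]
    congr 1
    push_cast
    ring
  have h2 : ∀ p : Nat.Primes, HasSum (fun k : ℕ => cz X (p, k) *
      Complex.exp (-(s * xx NN (p, k)))) (logFibre X p s) := by
    intro p
    have h3 := (h1.comp_injective (i := fun k : ℕ => (p, k)) fun a b h => (Prod.ext_iff.1 h).2).hasSum
    have h4 : logFibre X p s = ∑' k : ℕ, cz X (p, k) * Complex.exp (-(s * xx NN (p, k))) := by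
      unfold logFibre
      exact tsum_congr fun k => (hterm p k).symm
    rw [h4]
    exact h3
  exact (h1.hasSum.prod_fiberwise h2).cexp

theorem isZeta_iff {X : Scheme.{0}} {σ : ℝ} (D : GD (xx NN) (cz X) (Real.log 2) σ) {s : ℂ}
    (hs : σ ≤ s.re) (y : ℂ) : IsZeta X s y ↔ Complex.exp (ll (xx NN) (cz X) s) = y := by
  have h1 := hasProd D hs
  unfold IsZeta
  constructor
  · intro h
    exact h1.unique h
  · rintro rfl
    exact h1

/-- **Theorem.** Let `X` be a scheme of finite type over `ℤ`. There is `σ₁` such that for all `σ₀ ≥ σ₁` the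
following holds. The product `ζ(X, s)` converges for `Re s > σ₀`, its values are not zero.

(1) For `A ≥ 0` and all finite divisors in the sector `|Im s| < Re s + A`, `Re s ≤ σ₀`: `ζ(X, s)` has a
meromorphic continuation to the union of the sector and `Re s > σ₀` with this divisor if and only if
`G_A(T) = -∑ m(β) exp((β + A)² T) + O(exp(ε T))` for every `ε > 0`.

(2) `ζ(X, s)` has a meromorphic continuation to `ℂ` if and only if for every `A ≥ 0` the Gaussian sum `G_A(T)`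
of the point counts has such an expansion with some finite divisor; it suffices to have this for arbitrarily large
`A`.

(3) If `f` is a meromorphic continuation of `ζ(X, s)` to `ℂ`, then for every `A ≥ 0` the set `Z` of the zeros and
poles of `f` in the sector `|Im s| < Re s + A` is finite, contained in `Re s ≤ σ₀`, and `G_A(T)` has the expansion in
(1) with `m(β)` the order of `f` at `β`, `β ∈ Z`. -/
theorem result (X : Scheme.{0}) [CompactSpace X] (f : X ⟶ Spec (CommRingCat.of ℤ))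
    [LocallyOfFiniteType f] :
    ∃ σ₁ : ℝ, ∀ σ₀ : ℝ, σ₁ ≤ σ₀ →
    (∀ s : ℂ, σ₀ < s.re → ∃ y : ℂ, y ≠ 0 ∧ IsZeta X s y) ∧
    (∀ A : ℝ, 0 ≤ A → ∀ (Z : Finset ℂ) (m : ℂ → ℤ), InSector σ₀ A Z →
      (ContinuesWith X σ₀ A Z m ↔ Expansion X A Z m)) ∧
    ((∃ F : ℂ → ℂ, IsContinuation X F) ↔
      ∀ A : ℝ, 0 ≤ A → ∃ (Z : Finset ℂ) (m : ℂ → ℤ), InSector σ₀ A Z ∧ Expansion X A Z m) ∧
    ((∃ F : ℂ → ℂ, IsContinuation X F) ↔
      ∀ A₀ : ℝ, ∃ A : ℝ, A₀ ≤ A ∧ 0 ≤ A ∧
        ∃ (Z : Finset ℂ) (m : ℂ → ℤ), InSector σ₀ A Z ∧ Expansion X A Z m) ∧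
    ∀ F : ℂ → ℂ, IsContinuation X F → ∀ A : ℝ, 0 ≤ A →
      ∃ Z : Finset ℂ, (∀ β : ℂ, β ∈ Z ↔ β ∈ Sector A ∧ meromorphicOrderAt F β ≠ 0) ∧
        InSector σ₀ A Z ∧ Expansion X A Z fun β => (meromorphicOrderAt F β).untop₀ := by
  obtain ⟨c, hc⟩ := exists_gd X f
  refine ⟨c + 2, fun σ₀ hσ => ?_⟩
  have D := hc σ₀ (by linarith)
  have hplane : ∀ F : ℂ → ℂ, IsContinuation X F → ∀ A : ℝ, 0 ≤ A →
      ∃ Z : Finset ℂ, (∀ β : ℂ, β ∈ Z ↔ β ∈ Sector A ∧ meromorphicOrderAt F β ≠ 0) ∧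
        InSector σ₀ A Z ∧ Expansion X A Z fun β => (meromorphicOrderAt F β).untop₀ := by
    rintro F ⟨h1, σ, h2⟩ A hA
    obtain ⟨Z, h3, h4, h5⟩ := D.plane_ex h1 (σ' := max σ σ₀) (fun s hs => by
      have h6 := h2 s ((le_max_left _ _).trans_lt hs)
      exact ((isZeta_iff D ((le_max_right _ _).trans hs.le) _).1 h6).symm) hA
    exact ⟨Z, h3, h4, (expansion_iff X A Z _).2 h5⟩
  have hback : (∀ A₀ : ℝ, ∃ A : ℝ, A₀ ≤ A ∧ 0 ≤ A ∧
      ∃ (Z : Finset ℂ) (m : ℂ → ℤ), InSector σ₀ A Z ∧ Expansion X A Z m) →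
      ∃ F : ℂ → ℂ, IsContinuation X F := by
    intro h
    obtain ⟨F, h1, h2⟩ := D.plane fun A₀ => by
      obtain ⟨A, h1, h2, Z, m, h3, h4⟩ := h A₀
      exact ⟨A, h1, h2, Z, m, h3, (expansion_iff X A Z m).1 h4⟩
    exact ⟨F, h1, σ₀, fun s hs => (isZeta_iff D hs.le _).2 (h2 s hs).symm⟩
  refine ⟨fun s hs => ⟨_, Complex.exp_ne_zero _, (isZeta_iff D hs.le _).2 rfl⟩,
    fun A hA Z m hZ => ?_, ⟨?_, fun h => hback fun A₀ => ?_⟩, ⟨?_, hback⟩, hplane⟩
  · rw [expansion_iff, ← D.crit hA m hZ]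
    constructor
    · rintro ⟨H, h1, h2⟩
      exact ⟨H, h1, fun s hs => (isZeta_iff D hs.le _).1 (h2 s hs)⟩
    · rintro ⟨H, h1, h2⟩
      exact ⟨H, h1, fun s hs => (isZeta_iff D hs.le _).2 (h2 s hs)⟩
  · rintro ⟨F, hF⟩ A hA
    obtain ⟨Z, -, h2, h3⟩ := hplane F hF A hA
    exact ⟨Z, _, h2, h3⟩
  · exact ⟨max A₀ 0, le_max_left _ _, le_max_right _ _, h _ (le_max_right _ _)⟩
  · rintro ⟨F, hF⟩ A₀
    obtain ⟨Z, -, h2, h3⟩ := hplane F hF (max A₀ 0) (le_max_right _ _)
    exact ⟨max A₀ 0, le_max_left _ _, le_max_right _ _, Z, _, h2, h3⟩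

end Pool.Agent.Results.MP_7193be_nt.GaussianPointCounts
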