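import Pool.Agent.V11288.MQ.Sq
import Pool.Agent.V11288.EV.Frob

/-!
# The partial Euler products of `L(i; X, s)` at the central point in mean square

Let `X` be a smooth projective variety of dimension `d` over a number field `K` (for example `K = ℚ`) and
`0 ≤ i ≤ 2d`. For all primes `v` in a set `S` of primes (in the main case the primes of good reduction) let
`α_{v,1}, …, α_{v,N}` be the eigenvalues of Frobenius on `H^i(X)`, and let

`L(s) = ∏_{v ∈ S} ∏_j (1 - α_{v,j} q_v^{-s})⁻¹`, `Re s > i/2 + 1`,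

and suppose that `L(s)` continues to some half plane `Re s > c - η`, `η > 0`, across the central line
`Re s = c = (i + 1)/2`, with polynomial growth and without poles except perhaps a pole at `c` (parts (a) and
(b) of the problem give such a continuation, if `i` is odd). For the partial Euler products

`log P(Y) = ∑_{q_v^k ≤ Y} t_k(v) / (k q_v^{k c})`, `t_k(v) = ∑_j α_{v,j}^k`,

at the central point it is shown that for all integers `r` and all `A > 0` the following are EQUIVALENT: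

* `L(s)` has no zeros with `Re s > c` (this is part (c) of the problem), and `L(s) ∼ A (s - c)^r` for `s → c`;
* `∫_e^∞ (log P(Y) + r log log Y + r γ - log A)² dY/Y < ∞`;
* the logarithmic means of `(log P(y) + r log log y + r γ - log A)²` on `[e, Y]` tend to `0`;
* the logarithmic means of `|log P(y) + r log log y + r γ - log A|` on `[e, Y]` tend to `0`.

If they hold, then for all `ε > 0` the inequality `|log P(Y) + r log log Y + r γ - log A| ≤ ε` holds for all
`Y > e` outside of a set of finite logarithmic measure. Moreover `L(s)` has no zeros with `Re s > c` and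
the order `r` at `c` if and only if the logarithmic means of `|log P(y) + r log log y|` are bounded.
So part (c) of the problem for `X` and `i`, together with the order of vanishing at the central point, is
equivalent to the conjecture of Birch and Swinnerton-Dyer and Deligne-Goldfeld for the partial Euler
products at the centre, in mean square.
-/

set_option autoImplicit false

namespace Pool.Agent.Results.MP_7193be_nt.MeanSquareCentre

open Filter Topology Set NumberField IsDedekindDomain MeasureTheory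

variable {K : Type} [Field K] [NumberField K] {n N : ℕ}

/-- The norm `q_v`. -/
noncomputable def nrm (v : HeightOneSpectrum (𝓞 K)) : ℕ := Ideal.absNorm v.asIdeal

/-- The set `X` of homogeneous polynomials over `𝓞_K` in `n` variables gives a projective variety over
`K`.  For a field `κ` with `q` elements and a homomorphism `𝓞_K → κ` this is `(q - 1)` times the number
of the points of `X` with coordinates in `κ`: the number of the nonzero solutions of the equations. -/
noncomputable def cone (X : Set (MvPolynomial (Fin n) (𝓞 K))) {κ : Type} [Field κ]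
    (φ : 𝓞 K →+* κ) : ℕ :=
  Nat.card {u : Fin n → κ // u ≠ 0 ∧ ∀ f ∈ X, MvPolynomial.eval₂ φ u f = 0}

/-- `α_1, …, α_N` are the eigenvalues of the geometric Frobenius at the prime `v` of `K` on `H^i(X)`,
for a variety `X` of dimension `d`: there are finite multisets `β_k` of complex numbers of absolute
value `q_v^{k/2}`, `k = 0, …, 2d`, with `β_i = {α_1, …, α_N}`, such that for every finite extension
`κ` of the residue field of `v`, of degree `e`, the number of the points of `X` with coordinates in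
`κ` is `∑ (-1)^k ∑_{z ∈ β_k} z^e`.  By the theorem of Deligne such `β_k` exist at almost all primes
if `X` is smooth, with `N` the `i`-th Betti number of `X`; for `k ≤ 2d` they are unique. -/
def IsFrobenius (X : Set (MvPolynomial (Fin n) (𝓞 K))) (d i : ℕ)
    (v : HeightOneSpectrum (𝓞 K)) (α : Fin N → ℂ) : Prop :=
  ∃ β : ℕ → Multiset ℂ, β i = Finset.univ.val.map α ∧
    (∀ k, ∀ z ∈ β k, ‖z‖ = (nrm v : ℝ) ^ ((k : ℝ) / 2)) ∧
    ∀ (κ : Type) [Field κ] [Finite κ] (φ : 𝓞 K →+* κ) (e : ℕ), RingHom.ker φ = v.asIdeal →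
      Nat.card κ = nrm v ^ e →
      (cone X φ : ℂ) = ((nrm v : ℂ) ^ e - 1) *
          ∑ k ∈ Finset.range (2 * d + 1), (-1 : ℂ) ^ k * ((β k).map (fun z => z ^ e)).sum

variable {S : Set (HeightOneSpectrum (𝓞 K))}

/-- The Euler factor `∏_j (1 - α_{v,j} q_v^{-s})⁻¹`. -/
noncomputable def factor (α : S → Fin N → ℂ) (v : S) (s : ℂ) : ℂ :=
  ∏ j, (1 - α v j * (nrm v.1 : ℂ) ^ (-s))⁻¹

/-- The central point `(i + 1)/2`. -/
noncomputable def centre (i : ℕ) : ℝ := ((i : ℝ) + 1) / 2

/-- `L` continues the Euler product `∏_{v ∈ S} factor α v s`, `Re s > i/2 + 1`, across the central line: there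
are `η > 0`, natural numbers `k`, `κ`, a real `C` and a function `G`, holomorphic for
`Re s > (i + 1)/2 - η` with `‖G s‖ ≤ C (1 + ‖s‖)^κ`, such that `L(s) = G(s)/(s - c)^k` there for
`s ≠ c = (i + 1)/2`. -/
def Continuation (i : ℕ) (α : S → Fin N → ℂ) (L : ℂ → ℂ) : Prop :=
  (∀ s : ℂ, (i : ℝ) / 2 + 1 < s.re → HasProd (fun v : S => factor α v s) (L s)) ∧
  ∃ (η C : ℝ) (k κ : ℕ) (G : ℂ → ℂ), 0 < η ∧ ∀ s : ℂ, centre i - η < s.re →
    DifferentiableAt ℂ G s ∧ ‖G s‖ ≤ C * (1 + ‖s‖) ^ κ ∧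
    (s ≠ centre i → G s = (s - centre i) ^ k * L s)

/-- `L(s) ≠ 0` for `Re s > (i + 1)/2`. -/
def NoZeros (i : ℕ) (L : ℂ → ℂ) : Prop := ∀ s : ℂ, centre i < s.re → L s ≠ 0

/-- `log P(Y)`: the sum of `t_k(v) / (k q_v^{k (i+1)/2})` over all primes `v ∈ S` and `k ≥ 1` (here
`k = p.2 + 1`) with `q_v^k ≤ Y`; `t_k(v) = ∑_j α_{v,j}^k` is the trace of the `k`-th power of Frobenius, a real
number. -/
noncomputable def logP (i : ℕ) (α : S → Fin N → ℂ) (Y : ℝ) : ℝ :=
  ∑ᶠ (p : S × ℕ) (_ : (nrm p.1.1 : ℝ) ^ (p.2 + 1) ≤ Y),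
    (∑ j, α p.1 j ^ (p.2 + 1)).re / (((p.2 : ℝ) + 1) * ((nrm p.1.1 : ℝ) ^ centre i) ^ (p.2 + 1))

/-- The deviation `log P(Y) + r (γ + log log Y) - log A`. -/
noncomputable def dev (i : ℕ) (α : S → Fin N → ℂ) (r : ℤ) (A Y : ℝ) : ℝ :=
  logP i α Y + r * (Real.eulerMascheroniConstant + Real.log (Real.log Y)) - Real.log A

open Pool.Agent.TH942.ES
open Pool.Agent.V11288

/-- the normalised eigenvalues -/
noncomputable def nal (i : ℕ) (α : S → Fin N → ℂ) (v : S) (j : Fin N) : ℂ :=
  α v j * (((nrm v.1 : ℝ) ^ (-((i : ℝ) / 2)) : ℝ) : ℂ)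

theorem frob_iff {X : Set (MvPolynomial (Fin n) (𝓞 K))} {d i : ℕ} {v : HeightOneSpectrum (𝓞 K)}
    {α : Fin N → ℂ} : IsFrobenius X d i v α ↔ EV.IsFrobenius X d i v α := Iff.rfl

theorem nrm_two (v : HeightOneSpectrum (𝓞 K)) : (2 : ℝ) ≤ nrm v := by
  exact_mod_cast Pool.Agent.H921R2.TatePole.two_le_nm v

theorem zv_eq (i : ℕ) (α : S → Fin N → ℂ) (v : S) (j : Fin N) :
    zv (fun v : S => Pool.Agent.H921R2.TatePole.nm v.1) (nal i α) v j =
      α v j * ((((nrm v.1 : ℝ) ^ centre i)⁻¹ : ℝ) : ℂ) := by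
  have h2 := nrm_two v.1
  have h0 : (0 : ℝ) < nrm v.1 := by linarith
  change α v j * (((nrm v.1 : ℝ) ^ (-((i : ℝ) / 2)) : ℝ) : ℂ) / ((√(nrm v.1 : ℝ) : ℝ) : ℂ) = _
  rw [mul_div_assoc, ← Complex.ofReal_div]
  congr 2
  rw [Real.sqrt_eq_rpow, ← Real.rpow_sub h0, ← Real.rpow_neg h0.le]
  congr 1
  unfold centre
  ring

theorem norm_lt {X : Set (MvPolynomial (Fin n) (𝓞 K))} {d i : ℕ} {v : S} {α : S → Fin N → ℂ}
    (h : IsFrobenius X d i v.1 (α v)) (j : Fin N) :
    ‖α v j * ((((nrm v.1 : ℝ) ^ centre i)⁻¹ : ℝ) : ℂ)‖ < 1 := by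
  have h2 := nrm_two v.1
  have h0 : (0 : ℝ) < nrm v.1 := by linarith
  have h1 : ‖α v j‖ = (nrm v.1 : ℝ) ^ ((i : ℝ) / 2) := EV.norm' (frob_iff.1 h) j
  rw [norm_mul, h1, Complex.norm_real, Real.norm_eq_abs, abs_of_pos (by positivity),
    ← Real.rpow_neg h0.le, ← Real.rpow_add h0]
  refine Real.rpow_lt_one_of_one_lt_of_neg (by linarith) ?_
  unfold centre
  linarith

theorem nal_norm {X : Set (MvPolynomial (Fin n) (𝓞 K))} {d i : ℕ} {v : S} {α : S → Fin N → ℂ}
    (h : IsFrobenius X d i v.1 (α v)) (j : Fin N) : ‖nal i α v j‖ ≤ 1 := by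
  have h2 := nrm_two v.1
  have h0 : (0 : ℝ) < nrm v.1 := by linarith
  have h1 : ‖α v j‖ = (nrm v.1 : ℝ) ^ ((i : ℝ) / 2) := EV.norm' (frob_iff.1 h) j
  unfold nal
  rw [norm_mul, h1, Complex.norm_real, Real.norm_eq_abs, abs_of_pos (by positivity),
    ← Real.rpow_add h0, add_neg_cancel, Real.rpow_zero]

theorem pow_real {X : Set (MvPolynomial (Fin n) (𝓞 K))} {d i : ℕ} (hi : i ≤ 2 * d) {v : S}
    {α : S → Fin N → ℂ} (h : IsFrobenius X d i v.1 (α v)) (c : ℝ) (k : ℕ) :
    (∑ j, (α v j * (c : ℂ)) ^ k).im = 0 := by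
  refine EV.real_sum hi (frob_iff.1 h) (fun z => (z * (c : ℂ)) ^ k) fun j => ?_
  rw [map_pow, map_mul, Complex.conj_ofReal]

theorem log_real {X : Set (MvPolynomial (Fin n) (𝓞 K))} {d i : ℕ} (hi : i ≤ 2 * d) {v : S}
    {α : S → Fin N → ℂ} (h : IsFrobenius X d i v.1 (α v)) :
    (∑ j, Complex.log (1 - α v j * ((((nrm v.1 : ℝ) ^ centre i)⁻¹ : ℝ) : ℂ))).im = 0 := by
  refine EV.real_sum hi (frob_iff.1 h)
    (fun z => Complex.log (1 - z * ((((nrm v.1 : ℝ) ^ centre i)⁻¹ : ℝ) : ℂ))) fun j => ?_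
  have h1 := norm_lt h j
  rw [← Complex.log_conj]
  · rw [map_sub, map_one, map_mul, Complex.conj_ofReal]
  · intro h2
    have h3 := (Complex.arg_eq_pi_iff.1 h2).1
    rw [Complex.sub_re, Complex.one_re] at h3
    have h4 := (Complex.re_le_norm (α v j * ((((nrm v.1 : ℝ) ^ centre i)⁻¹ : ℝ) : ℂ))).trans_lt h1
    linarith

theorem sys {X : Set (MvPolynomial (Fin n) (𝓞 K))} {d i : ℕ} (hi : i ≤ 2 * d)
    {α : S → Fin N → ℂ} (h : ∀ v, IsFrobenius X d i v.1 (α v)) :
    Sys (fun v : S => Pool.Agent.H921R2.TatePole.nm v.1) (nal i α) :=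
  nf_sys (fun v => v ∈ S) (nal i α) (fun v j => nal_norm (h v) j) fun v => by
    have h1 : ∀ j, nal i α v j / ((√(((Pool.Agent.H921R2.TatePole.nm v.1 : ℕ) : ℝ)) : ℝ) : ℂ) =
        α v j * ((((nrm v.1 : ℝ) ^ centre i)⁻¹ : ℝ) : ℂ) := fun j => zv_eq i α v j
    simp only [h1]
    exact log_real hi (h v)

theorem factor_eq (i : ℕ) (α : S → Fin N → ℂ) (s : ℂ) :
    (fun v : S => factor α v s) = fun v : S =>
      ∏ j, (1 - zv (fun v : S => Pool.Agent.H921R2.TatePole.nm v.1) (nal i α) v j *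
        xv (fun v : S => Pool.Agent.H921R2.TatePole.nm v.1) v (s - centre i))⁻¹ := by
  funext v
  have h2 := nrm_two v.1
  have h0 : (0 : ℝ) < nrm v.1 := by linarith
  have hc : (nrm v.1 : ℂ) ≠ 0 := by exact_mod_cast h0.ne'
  unfold factor
  refine Finset.prod_congr rfl fun j _ => ?_
  rw [zv_eq]
  congr 2
  rw [mul_assoc]
  congr 1
  have e1 : xv (fun v : S => Pool.Agent.H921R2.TatePole.nm v.1) v (s - centre i) =
      (nrm v.1 : ℂ) ^ (-(s - centre i)) := by
    rw [Complex.cpow_def_of_ne_zero hc]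
    unfold xv
    congr 1
    change -((s - centre i) * ((Real.log (nrm v.1 : ℝ) : ℝ) : ℂ)) = _
    rw [Complex.ofReal_log h0.le, Complex.ofReal_natCast]
    ring
  rw [e1, ← Real.rpow_neg h0.le, Complex.ofReal_cpow h0.le, Complex.ofReal_natCast,
    ← Complex.cpow_add _ _ hc]
  congr 1
  push_cast
  ring

theorem hasProd_iff {X : Set (MvPolynomial (Fin n) (𝓞 K))} {d i : ℕ} (hi : i ≤ 2 * d)
    {α : S → Fin N → ℂ} (h : ∀ v, IsFrobenius X d i v.1 (α v)) {s : ℂ}
    (hs : (i : ℝ) / 2 + 1 < s.re) (y : ℂ) :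
    HasProd (fun v : S => factor α v s) y ↔
      y = LE (fun v : S => Pool.Agent.H921R2.TatePole.nm v.1) (nal i α) (s - centre i) := by
  have h1 : 1 / 2 < (s - centre i).re := by
    rw [Complex.sub_re, Complex.ofReal_re]
    unfold centre
    linarith
  have h2 := (sys hi h).hasProd h1
  rw [factor_eq i α s]
  constructor
  · intro h
    exact h.tprod_eq.symm
  · rintro rfl
    unfold Pool.Agent.TH942.ES.LE
    rw [h2.tprod_eq]
    exact h2

theorem cP_eq (i : ℕ) (α : S → Fin N → ℂ) (p : S × ℕ) :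
    cP (fun v : S => Pool.Agent.H921R2.TatePole.nm v.1) (nal i α) p =
      (∑ j, α p.1 j ^ (p.2 + 1)).re /
        (((p.2 : ℝ) + 1) * ((nrm p.1.1 : ℝ) ^ centre i) ^ (p.2 + 1)) := by
  have h2 := nrm_two p.1.1
  have h0 : (0 : ℝ) < nrm p.1.1 := by linarith
  have h3 : (0 : ℝ) < (nrm p.1.1 : ℝ) ^ centre i := by positivity
  unfold cP
  simp only [zv_eq, mul_pow]
  rw [← Finset.sum_mul, ← Complex.ofReal_pow, Complex.re_mul_ofReal, inv_pow]
  field_simp

theorem logP_eq (i : ℕ) (α : S → Fin N → ℂ) (Y : ℝ) : logP i α Y =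
    Pool.Agent.TH270.MS.Pl (fun v : S => Pool.Agent.H921R2.TatePole.nm v.1) (nal i α) Y := by
  unfold logP Pool.Agent.TH270.MS.Pl
  refine finsum_congr fun p => finsum_congr fun _ => ?_
  rw [cP_eq]

theorem dev_eq (i : ℕ) (α : S → Fin N → ℂ) (r : ℤ) (A Y : ℝ) : dev i α r A Y =
    Pool.Agent.TH270.MS.Dv (fun v : S => Pool.Agent.H921R2.TatePole.nm v.1) (nal i α) r A Y := by
  unfold dev Pool.Agent.TH270.MS.Dv
  rw [logP_eq]

/-- the data of the library -/
theorem data {X : Set (MvPolynomial (Fin n) (𝓞 K))} {d i : ℕ} (hi : i ≤ 2 * d)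
    {α : S → Fin N → ℂ} (h : ∀ v, IsFrobenius X d i v.1 (α v)) {L : ℂ → ℂ}
    (hL : Continuation i α L) : ∃ (G₀ : ℂ → ℂ) (k κ : ℕ) (η C : ℝ),
      Pool.Agent.TH270.MS.Mc (fun v : S => Pool.Agent.H921R2.TatePole.nm v.1) (nal i α)
        (fun s => L (s + centre i)) G₀ k κ η C := by
  obtain ⟨h1, η, C, k, κ, G, hη, h2⟩ := hL
  set c : ℝ := centre i with hc
  have hc0 : 0 ≤ c := by
    rw [hc]
    unfold centre
    positivity
  have hre : ∀ s : ℂ, (s + (c : ℂ)).re = s.re + c := fun s => by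
    rw [Complex.add_re, Complex.ofReal_re]
  refine ⟨fun s => G (s + c), k, κ, η, |C| * (1 + c) ^ κ, ?_⟩
  refine ⟨sys hi h, ?_, hη, ?_, ?_, ?_, ?_⟩
  · intro v m
    simp only [zv_eq]
    exact pow_real hi (h v) _ m
  · intro s hs
    have h3 : c - η < (s + (c : ℂ)).re := by rw [hre]; linarith
    exact (h2 _ h3).1.comp s (by fun_prop)
  · intro s hs
    have h3 : c - η < (s + (c : ℂ)).re := by rw [hre]; linarith
    refine (h2 _ h3).2.1.trans ?_
    have h4 : ‖s + (c : ℂ)‖ ≤ ‖s‖ + c := by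
      refine (norm_add_le _ _).trans ?_
      rw [Complex.norm_real, Real.norm_of_nonneg hc0]
    have h5 : 1 + ‖s + (c : ℂ)‖ ≤ (1 + c) * (1 + ‖s‖) := by
      nlinarith [norm_nonneg s]
    calc C * (1 + ‖s + (c : ℂ)‖) ^ κ ≤ |C| * (1 + ‖s + (c : ℂ)‖) ^ κ := by
          gcongr
          exact le_abs_self C
      _ ≤ |C| * ((1 + c) * (1 + ‖s‖)) ^ κ := by gcongr
      _ = |C| * (1 + c) ^ κ * (1 + ‖s‖) ^ κ := by rw [mul_pow]; ring
  · intro s hs hs0
    have h3 : c - η < (s + (c : ℂ)).re := by rw [hre]; linarith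
    have h4 : s + (c : ℂ) ≠ c := by
      intro h5
      exact hs0 (by simpa using h5)
    have h5 := (h2 _ h3).2.2 h4
    rw [add_sub_cancel_right] at h5
    exact h5
  · intro s hs
    have h3 : (i : ℝ) / 2 + 1 < (s + (c : ℂ)).re := by
      rw [hre, hc]
      unfold centre
      linarith
    have h4 := (hasProd_iff hi h h3 _).1 (h1 _ h3)
    rwa [← hc, add_sub_cancel_right] at h4

theorem noZeros_iff (i : ℕ) (L : ℂ → ℂ) : NoZeros i L ↔
    ∀ s : ℂ, 0 < s.re → (fun s => L (s + centre i)) s ≠ 0 := by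
  constructor
  · intro h s hs
    refine h _ ?_
    rw [Complex.add_re, Complex.ofReal_re]
    linarith
  · intro h s hs
    have h1 := h (s - centre i) (by
      rw [Complex.sub_re, Complex.ofReal_re]
      linarith)
    simp only [sub_add_cancel] at h1
    exact h1

theorem order_shift (i : ℕ) (L : ℂ → ℂ) :
    meromorphicOrderAt (fun s => L (s + centre i)) 0 = meromorphicOrderAt L (centre i) := by
  have hg : AnalyticAt ℂ (fun s : ℂ => s + centre i) 0 := by fun_prop
  have hd : deriv (fun s : ℂ => s + (centre i : ℂ)) 0 ≠ 0 := by simp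
  have h := meromorphicOrderAt_comp_of_deriv_ne_zero (f := L) hg hd
  have e1 : (L ∘ fun s : ℂ => s + (centre i : ℂ)) = fun s => L (s + centre i) := rfl
  rw [e1] at h
  rw [h]
  simp

theorem lim_shift (i : ℕ) (L : ℂ → ℂ) (r : ℤ) (l : Filter ℂ) :
    Tendsto (fun s : ℂ => L s / (s - centre i) ^ r) (𝓝[≠] (centre i : ℂ)) l ↔
      Tendsto (fun s : ℂ => L (s + centre i) / s ^ r) (𝓝[≠] 0) l := by
  have h1 : Tendsto (fun s : ℂ => s - centre i) (𝓝[≠] (centre i : ℂ)) (𝓝[≠] 0) := by
    refine tendsto_nhdsWithin_of_tendsto_nhds_of_eventually_within _ ?_ ?_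
    · have : Tendsto (fun s : ℂ => s - centre i) (𝓝 (centre i : ℂ)) (𝓝 ((centre i : ℂ) - centre i)) :=
        (continuous_id.sub continuous_const).tendsto _
      rw [sub_self] at this
      exact this.mono_left nhdsWithin_le_nhds
    · filter_upwards [self_mem_nhdsWithin] with s hs
      exact sub_ne_zero.2 hs
  have h2 : Tendsto (fun s : ℂ => s + centre i) (𝓝[≠] 0) (𝓝[≠] (centre i : ℂ)) := by
    refine tendsto_nhdsWithin_of_tendsto_nhds_of_eventually_within _ ?_ ?_
    · have : Tendsto (fun s : ℂ => s + centre i) (𝓝 (0 : ℂ)) (𝓝 ((0 : ℂ) + centre i)) :=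
        (continuous_id.add continuous_const).tendsto _
      rw [zero_add] at this
      exact this.mono_left nhdsWithin_le_nhds
    · filter_upwards [self_mem_nhdsWithin] with s hs
      have h3 : s ≠ 0 := hs
      show s + (centre i : ℂ) ≠ centre i
      intro h4
      exact h3 (by simpa using h4)
  constructor
  · intro h
    refine (h.comp h2).congr fun s => ?_
    simp only [Function.comp_apply, add_sub_cancel_right]
  · intro h
    refine (h.comp h1).congr fun s => ?_
    simp only [Function.comp_apply, sub_add_cancel]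

/-- **Theorem.** Let `X` be a projective variety over a number field `K`, given by a set of homogeneous
polynomials over `𝓞_K`, `i ≤ 2d`, `S` a set of primes of `K` and `α_{v,j}` the eigenvalues of Frobenius on
`H^i(X)` at all `v ∈ S`; let `L` be a continuation of `∏_{v ∈ S} ∏_j (1 - α_{v,j} q_v^{-s})⁻¹` to
`Re s > (i + 1)/2 - η` of polynomial growth, holomorphic except perhaps for a pole at the central point
`c = (i + 1)/2`. Let `r` be an integer.

(1) Equivalent are: (i) `L` has no zeros with `Re s > c` and the order `r` at `c`;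
(ii) `∫_e^∞ (log P(Y) + r (γ + log log Y) - log A)² dY/Y < ∞` for some `A > 0`;
(iii) `∫_e^Y |log P(y) + r log log y| dy/y ≤ B log Y` for some `B` and all large `Y`.

(2) For all `A > 0` equivalent are: (i) `L` has no zeros with `Re s > c` and `L(s)/(s - c)^r → A` for
`s → c`; (ii) `∫_e^∞ (log P(Y) + r (γ + log log Y) - log A)² dY/Y < ∞`; (iii) the same integral with the
first power of the absolute value over `[e, Y]`, divided by `log Y`, tends to `0`; (iv) the same integral
(with the square) over `[e, Y]`, divided by `log Y`, tends to `0`.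

(3) Under the conditions of (2) the set of all `Y > e` with
`|log P(Y) + r (γ + log log Y) - log A| > ε` has finite logarithmic measure for all `ε > 0`. -/
theorem result (X : Set (MvPolynomial (Fin n) (𝓞 K))) (d i : ℕ) (hi : i ≤ 2 * d)
    (α : S → Fin N → ℂ) (h : ∀ v, IsFrobenius X d i v.1 (α v)) (L : ℂ → ℂ)
    (hL : Continuation i α L) (r : ℤ) :
    List.TFAE [
      NoZeros i L ∧ meromorphicOrderAt L (centre i) = r,
      ∃ A : ℝ, 0 < A ∧ IntegrableOn (fun Y : ℝ => dev i α r A Y ^ 2 / Y) (Ioi (Real.exp 1)),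
      ∃ B : ℝ, ∀ᶠ Y : ℝ in atTop,
        ∫ y in Real.exp 1..Y, |logP i α y + r * Real.log (Real.log y)| / y ≤ B * Real.log Y] ∧
    ∀ A : ℝ, 0 < A → List.TFAE [
      NoZeros i L ∧ Tendsto (fun s : ℂ => L s / (s - centre i) ^ r) (𝓝[≠] (centre i : ℂ))
        (𝓝 (A : ℂ)),
      IntegrableOn (fun Y : ℝ => dev i α r A Y ^ 2 / Y) (Ioi (Real.exp 1)),
      Tendsto (fun Y : ℝ => (∫ y in Real.exp 1..Y, |dev i α r A y| / y) / Real.log Y) atTop (𝓝 0),
      Tendsto (fun Y : ℝ => (∫ y in Real.exp 1..Y, dev i α r A y ^ 2 / y) / Real.log Y) atTop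
        (𝓝 0)] ∧
      (IntegrableOn (fun Y : ℝ => dev i α r A Y ^ 2 / Y) (Ioi (Real.exp 1)) → ∀ ε : ℝ, 0 < ε →
        ∫⁻ Y in {Y : ℝ | Real.exp 1 < Y ∧ ε < |dev i α r A Y|}, ENNReal.ofReal (1 / Y) < ⊤) := by
  obtain ⟨G₀, k, κ, η, C, H⟩ := data hi h hL
  simp only [dev_eq, logP_eq, noZeros_iff, ← order_shift, lim_shift]
  refine ⟨H.tfae_order r, fun A hA => ⟨MQ.tfae_lead H r hA, fun hf ε hε => ?_⟩⟩
  exact Pool.Agent.TH270.MS.fin_log_meas hf hε (Pool.Agent.TH270.MS.dv_meas H r A ε)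

end Pool.Agent.Results.MP_7193be_nt.MeanSquareCentre
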